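import Pool.Agent.H86.WuF

namespace Pool.Agent.Results.MP_de1b00_an.Residual
open Pool.Agent.H86.Wu

universe u

theorem result {H : Type u} [NormedAddCommGroup H] [InnerProductSpace ℂ H] [CompleteSpace H]
    (M : VonNeumannAlgebra H) : PropR M ↔ SigmaFin M ∧ NoFinDimSummand M :=
  main M

end Pool.Agent.Results.MP_de1b00_an.Residual
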